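import Mathlib
import Pool.Agent.Q233.MatFC
import Pool.Agent.Q233.SimComb

/-!
# MP_796113_mp, Q1: no constant-round simulation with one ancilla qubit

For every `c > 0` and every number of rounds `R` there is a channel which cannot be simulated with
success probability at least `c` by an adaptive protocol with one ancilla qubit and at most `R`
rounds of projective measurements.
-/

namespace Pool.Agent.Results.MP_796113_mp.NoConstantRounds

open Matrix MeasureTheory
open scoped Kronecker ComplexOrder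

/-- Density operators: positive semidefinite matrices of trace one. -/
structure IsDensity {n : Type} [Fintype n] (ρ : Matrix n n ℂ) : Prop where
  psd : ρ.PosSemidef
  tr : ρ.trace = 1

/-- The map `id ⊗ N` on `ℂ^r ⊗ ℂ^d`, applied block by block. -/
def ampl {d : ℕ} (r : ℕ) (N : Matrix (Fin d) (Fin d) ℂ →ₗ[ℂ] Matrix (Fin d) (Fin d) ℂ)
    (Z : Matrix (Fin r × Fin d) (Fin r × Fin d) ℂ) :
    Matrix (Fin r × Fin d) (Fin r × Fin d) ℂ :=
  Matrix.of fun p q => N (Matrix.of fun x y => Z (p.1, x) (q.1, y)) p.2 q.2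

/-- Quantum channels on `d × d` matrices: completely positive trace-preserving linear maps. -/
structure IsChannel {d : ℕ}
    (N : Matrix (Fin d) (Fin d) ℂ →ₗ[ℂ] Matrix (Fin d) (Fin d) ℂ) : Prop where
  cp : ∀ (r : ℕ) (Z : Matrix (Fin r × Fin d) (Fin r × Fin d) ℂ), Z.PosSemidef →
    (ampl r N Z).PosSemidef
  tp : ∀ Z, (N Z).trace = Z.trace

/-- The index set of the joint system `ℂ^d ⊗ ℂ²` (system and ancilla qubit). -/
abbrev J (d : ℕ) : Type := Fin d × Fin 2

/-- A projective measurement with `n` outcomes. -/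
structure IsPVM {d n : ℕ} (P : Fin n → Matrix (J d) (J d) ℂ) : Prop where
  herm : ∀ i, (P i).IsHermitian
  idem : ∀ i, P i * P i = P i
  orth : ∀ i j, i ≠ j → P i * P j = 0
  sum : ∑ i, P i = 1

/-- Adaptive protocols on the joint system with at most `R` rounds (and no randomness): either
stop and declare success or failure, or perform a projective measurement, apply a unitary chosen
from the outcome, and continue with a protocol chosen from the outcome. -/
inductive Tree (d : ℕ) : ℕ → Type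
  | stop {R : ℕ} (success : Bool) : Tree d R
  | round {R : ℕ} (n : ℕ) (P U : Fin n → Matrix (J d) (J d) ℂ) (next : Fin n → Tree d R) :
      Tree d (R + 1)

/-- All measurements are projective measurements, all unitaries are unitary. -/
def Tree.Valid {d : ℕ} : {R : ℕ} → Tree d R → Prop
  | _, .stop _ => True
  | _, .round _ P U next => IsPVM P ∧ (∀ i, U i ∈ Matrix.unitaryGroup (J d) ℂ) ∧
      ∀ i, (next i).Valid

/-- The unnormalised joint final state on success: the sum, over the runs that declare success, of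
the conditional states weighted by the probability of the run. -/
noncomputable def Tree.run {d : ℕ} : {R : ℕ} → Tree d R → Matrix (J d) (J d) ℂ →
    Matrix (J d) (J d) ℂ
  | _, .stop s, X => if s then X else 0
  | _, .round _ P U next, X => ∑ i, (next i).run (U i * (P i * X * P i) * (U i)ᴴ)

/-- The unnormalised output on success, for the input `ρ`: the ancilla is prepared in `|0⟩`, the
unitary `U0` is applied, the protocol is run, and the ancilla is discarded. -/
noncomputable def succOut {d R : ℕ} (U0 : Matrix (J d) (J d) ℂ) (τ : Tree d R)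
    (ρ : Matrix (Fin d) (Fin d) ℂ) : Matrix (Fin d) (Fin d) ℂ :=
  Matrix.of fun x y => ∑ a : Fin 2,
    τ.run (U0 * (ρ ⊗ₖ Matrix.single (0 : Fin 2) (0 : Fin 2) (1 : ℂ)) * U0ᴴ) (x, a) (y, a)

/-- The randomised protocol given by the random seed `ω ∈ Ω`, distributed according to `μ`, and by
the initial unitary `U0 ω` and the adaptive protocol `τ ω`, simulates `Φ` with success probability
`q`: for every input state `ρ`, the average unnormalised output on success is `q Φ(ρ)`. (Its trace
is the success probability, and its normalisation is the output conditioned on success.) -/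
structure Simulates {d R : ℕ} (Φ : Matrix (Fin d) (Fin d) ℂ →ₗ[ℂ] Matrix (Fin d) (Fin d) ℂ)
    (q : ℝ) (Ω : Type) [MeasurableSpace Ω] (μ : Measure Ω) (U0 : Ω → Matrix (J d) (J d) ℂ)
    (τ : Ω → Tree d R) : Prop where
  unitary : ∀ ω, U0 ω ∈ Matrix.unitaryGroup (J d) ℂ
  valid : ∀ ω, (τ ω).Valid
  integrable : ∀ ρ, IsDensity ρ → ∀ x y, Integrable (fun ω => succOut (U0 ω) (τ ω) ρ x y) μ
  output : ∀ ρ, IsDensity ρ → ∀ x y, ∫ ω, succOut (U0 ω) (τ ω) ρ x y ∂μ = q * Φ ρ x y

/-! ### Kraus operators of a tree -/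

/-- The Kraus operators of the successful runs. -/
noncomputable def Tree.kr {d : ℕ} : {R : ℕ} → Tree d R → List (Matrix (J d) (J d) ℂ)
  | _, .stop s => if s then [1] else []
  | _, .round n P U next => (List.finRange n).flatMap
      (fun i => (next i).kr.map (fun K => K * (U i * P i)))

lemma sum_flatMap_map {α β M : Type*} [AddCommMonoid M] (l : List α) (g : α → List β) (f : β → M) :
    ((l.flatMap g).map f).sum = (l.map (fun a => ((g a).map f).sum)).sum := by
  induction l with
  | nil => simp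
  | cons a l ih => simp [List.flatMap_cons, ih]

lemma sum_finRange {M : Type*} [AddCommMonoid M] {n : ℕ} (f : Fin n → M) :
    ((List.finRange n).map f).sum = ∑ i, f i := by
  rw [← List.ofFn_eq_map, List.sum_ofFn]

lemma run_eq {d R : ℕ} (τ : Tree d R) (hτ : τ.Valid) (X : Matrix (J d) (J d) ℂ) :
    τ.run X = (τ.kr.map (fun K => K * X * Kᴴ)).sum := by
  induction τ generalizing X with
  | stop s => cases s <;> simp [Tree.run, Tree.kr]
  | round n P U next ih =>
    obtain ⟨hP, hU, hn⟩ := hτ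
    rw [Tree.run, Tree.kr, sum_flatMap_map, sum_finRange]
    apply Finset.sum_congr rfl
    intro i _
    rw [ih i (hn i), List.map_map]
    congr 1
    apply List.map_congr_left
    intro K _
    simp only [Function.comp_apply, conjTranspose_mul, (hP.herm i).eq]
    simp only [mul_assoc]

lemma kr_le {d R : ℕ} (τ : Tree d R) (hτ : τ.Valid) :
    (1 - (τ.kr.map (fun K => Kᴴ * K)).sum).PosSemidef := by
  induction τ with
  | stop s => cases s <;> simp [Tree.kr, PosSemidef.zero, PosSemidef.one]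
  | round n P U next ih =>
    obtain ⟨hP, hU, hn⟩ := hτ
    rw [Tree.kr, sum_flatMap_map, sum_finRange]
    have h1 : ∀ i, (((next i).kr.map (fun K => K * (U i * P i))).map (fun K => Kᴴ * K)).sum =
        (U i * P i)ᴴ * ((next i).kr.map (fun K => Kᴴ * K)).sum * (U i * P i) := by
      intro i
      rw [List.map_map]
      have : ∀ l : List (Matrix (J d) (J d) ℂ),
          (l.map ((fun K => Kᴴ * K) ∘ fun K => K * (U i * P i))).sum =
          (U i * P i)ᴴ * (l.map (fun K => Kᴴ * K)).sum * (U i * P i) := by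
        intro l
        induction l with
        | nil => simp
        | cons K l ihl =>
          rw [List.map_cons, List.map_cons, List.sum_cons, List.sum_cons, ihl, mul_add, add_mul]
          congr 1
          simp only [Function.comp_apply, conjTranspose_mul, mul_assoc]
      exact this _
    simp only [h1]
    have h2 : (1 : Matrix (J d) (J d) ℂ) = ∑ i, (U i * P i)ᴴ * 1 * (U i * P i) := by
      conv_lhs => rw [← hP.sum]
      apply Finset.sum_congr rfl
      intro i _
      have hUU : (U i)ᴴ * U i = 1 := by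
        have := hU i
        rw [Matrix.mem_unitaryGroup_iff'] at this
        exact this
      rw [mul_one, conjTranspose_mul, (hP.herm i).eq, mul_assoc, ← mul_assoc (U i)ᴴ, hUU, one_mul,
        hP.idem]
    rw [h2, ← Finset.sum_sub_distrib]
    apply Matrix.posSemidef_sum
    intro i _
    rw [← sub_mul, ← mul_sub]
    exact (ih i (hn i)).conjTranspose_mul_mul_same _

lemma count_le {d R : ℕ} (τ : Tree d R) (hτ : τ.Valid) (r0 M : ℕ) (hr0 : 0 < r0)
    (hM : 2 * d ≤ M * r0) (hM1 : 1 ≤ M) :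
    τ.kr.countP (fun K => decide (r0 ≤ K.rank)) ≤ M ^ R := by
  induction τ with
  | @stop R s =>
    have h1 : 1 ≤ M ^ R := Nat.one_le_pow _ _ hM1
    cases s
    · simp [Tree.kr]
    · simp only [Tree.kr, if_true]
      exact (List.countP_le_length).trans (by simpa using h1)
  | @round R n P U next ih =>
    obtain ⟨hP, hU, hn⟩ := hτ
    rw [Tree.kr, List.countP_flatMap, sum_finRange]
    have h1 : ∀ i, (List.countP (fun K => decide (r0 ≤ K.rank)) ∘
        (fun i => (next i).kr.map (fun K => K * (U i * P i)))) i ≤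
        if r0 ≤ (P i).rank then M ^ R else 0 := by
      intro i
      rw [Function.comp_apply, List.countP_map]
      split_ifs with h
      · refine le_trans ?_ (ih i (hn i))
        apply List.countP_mono_left
        intro K _ hK
        simp only [Function.comp_apply, decide_eq_true_eq] at hK ⊢
        exact hK.trans (Matrix.rank_mul_le_left _ _)
      · apply le_of_eq
        rw [List.countP_eq_zero]
        intro K _
        simp only [Function.comp_apply, decide_eq_true_eq, not_le]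
        refine lt_of_le_of_lt ?_ (not_le.1 h)
        exact (Matrix.rank_mul_le_right _ _).trans (Matrix.rank_mul_le_right _ _)
    refine (Finset.sum_le_sum (fun i _ => h1 i)).trans ?_
    rw [← Finset.sum_filter, Finset.sum_const, smul_eq_mul, pow_succ, mul_comm]
    apply Nat.mul_le_mul_left
    -- number of outcomes of large rank
    have h2 : ∑ i, (P i).rank = 2 * d := by
      have h3 : ∀ i, ((P i).rank : ℝ) = Q233.MatFC.rtr (P i) := fun i =>
        (Q233.MatFC.IsProj.rtr_eq_rank ⟨hP.herm i, hP.idem i⟩).symm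
      have h4 : ((∑ i, (P i).rank : ℕ) : ℝ) = 2 * d := by
        push_cast
        simp only [h3]
        rw [← Q233.MatFC.rtr_sum, hP.sum, Q233.MatFC.rtr_one]
        simp [mul_comm]
      exact_mod_cast h4
    have h5 : (Finset.univ.filter (fun i => r0 ≤ (P i).rank)).card * r0 ≤ M * r0 := by
      calc (Finset.univ.filter (fun i => r0 ≤ (P i).rank)).card * r0
          = ∑ i ∈ Finset.univ.filter (fun i => r0 ≤ (P i).rank), r0 := by simp
        _ ≤ ∑ i ∈ Finset.univ.filter (fun i => r0 ≤ (P i).rank), (P i).rank :=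
          Finset.sum_le_sum (fun i hi => (Finset.mem_filter.1 hi).2)
        _ ≤ ∑ i, (P i).rank := Finset.sum_le_sum_of_subset (Finset.filter_subset _ _)
        _ ≤ M * r0 := by rw [h2]; exact hM
    exact Nat.le_of_mul_le_mul_right h5 hr0

/-- The Kraus operators of the success map on the system. -/
noncomputable def EK {d : ℕ} (U0 K : Matrix (J d) (J d) ℂ) (a : Fin 2) :
    Matrix (Fin d) (Fin d) ℂ :=
  (K * U0).submatrix (fun x => (x, a)) (fun y => (y, 0))

/-- The list of all of them. -/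
noncomputable def EL {d R : ℕ} (U0 : Matrix (J d) (J d) ℂ) (τ : Tree d R) :
    List (Matrix (Fin d) (Fin d) ℂ) :=
  τ.kr.flatMap (fun K => [EK U0 K 0, EK U0 K 1])

lemma EK_out {d : ℕ} (U0 K : Matrix (J d) (J d) ℂ) (ρ : Matrix (Fin d) (Fin d) ℂ) (a : Fin 2)
    (x y : Fin d) :
    (K * (U0 * (ρ ⊗ₖ Matrix.single (0 : Fin 2) (0 : Fin 2) (1 : ℂ)) * U0ᴴ) * Kᴴ) (x, a) (y, a) =
      (EK U0 K a * ρ * (EK U0 K a)ᴴ) x y := by
  have h1 : K * (U0 * (ρ ⊗ₖ Matrix.single (0 : Fin 2) (0 : Fin 2) (1 : ℂ)) * U0ᴴ) * Kᴴ =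
      (K * U0) * (ρ ⊗ₖ Matrix.single (0 : Fin 2) (0 : Fin 2) (1 : ℂ)) * (K * U0)ᴴ := by
    rw [conjTranspose_mul]; simp only [mul_assoc]
  rw [h1]
  simp only [Matrix.mul_apply, EK, submatrix_apply, conjTranspose_apply, kroneckerMap_apply,
    Fintype.sum_prod_type, Matrix.single_apply, Fin.sum_univ_two]
  simp

lemma succOut_eq {d R : ℕ} (U0 : Matrix (J d) (J d) ℂ) (τ : Tree d R) (hτ : τ.Valid)
    (ρ : Matrix (Fin d) (Fin d) ℂ) :
    succOut U0 τ ρ = ((EL U0 τ).map (fun E => E * ρ * Eᴴ)).sum := by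
  ext x y
  rw [succOut, Matrix.of_apply, run_eq τ hτ, EL, sum_flatMap_map]
  have h : ∀ l : List (Matrix (J d) (J d) ℂ), ∑ a : Fin 2,
      (l.map (fun K => K * (U0 * (ρ ⊗ₖ Matrix.single (0 : Fin 2) (0 : Fin 2) (1 : ℂ)) * U0ᴴ) *
        Kᴴ)).sum (x, a) (y, a) =
      (l.map (fun K => ([EK U0 K 0, EK U0 K 1].map (fun E => E * ρ * Eᴴ)).sum)).sum x y := by
    intro l
    induction l with
    | nil => simp
    | cons K l ih =>
      simp only [List.map_cons, List.sum_cons, Matrix.add_apply, Finset.sum_add_distrib, ih]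
      congr 1
      rw [Fin.sum_univ_two, EK_out, EK_out]
      simp
  exact h _

lemma list_sum_apply {m n : Type} (l : List (Matrix m n ℂ)) (x : m) (y : n) :
    l.sum x y = (l.map (fun E => E x y)).sum := by
  induction l with
  | nil => simp
  | cons a l ih => simp [ih]

/-- The diagonal entries of the Kraus operators are square summable. -/
lemma EL_diag {d R : ℕ} {U0 : Matrix (J d) (J d) ℂ} (hU0 : U0 ∈ Matrix.unitaryGroup (J d) ℂ)
    (τ : Tree d R) (hτ : τ.Valid) (x : Fin d) :
    ((EL U0 τ).map (fun E => ‖E x x‖ ^ 2)).sum ≤ 1 := by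
  have h1 := kr_le τ hτ
  have h2 := h1.conjTranspose_mul_mul_same U0
  have h3 := h2.diag_nonneg (i := (x, 0))
  have hUU : U0ᴴ * U0 = 1 := by
    rw [Matrix.mem_unitaryGroup_iff'] at hU0
    exact hU0
  rw [mul_sub, sub_mul, mul_one, hUU, Matrix.sub_apply, Matrix.one_apply_eq] at h3
  have h4 : ∀ l : List (Matrix (J d) (J d) ℂ),
      ((l.flatMap (fun K => [EK U0 K 0, EK U0 K 1])).map (fun E => ‖E x x‖ ^ 2)).sum ≤
      ((U0ᴴ * (l.map (fun K => Kᴴ * K)).sum * U0) (x, 0) (x, 0)).re := by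
    intro l
    induction l with
    | nil => simp
    | cons K l ih =>
      have e0 : (U0ᴴ * ((K :: l).map (fun K => Kᴴ * K)).sum * U0) (x, 0) (x, 0) =
          (U0ᴴ * (Kᴴ * K) * U0) (x, 0) (x, 0) +
          (U0ᴴ * (l.map (fun K => Kᴴ * K)).sum * U0) (x, 0) (x, 0) := by
        rw [List.map_cons, List.sum_cons, mul_add, add_mul, Matrix.add_apply]
      rw [List.flatMap_cons, List.map_append, List.sum_append, e0, Complex.add_re]
      apply add_le_add _ ih
      have e1 : U0ᴴ * (Kᴴ * K) * U0 = (K * U0)ᴴ * (K * U0) := by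
        rw [conjTranspose_mul]; simp only [mul_assoc]
      rw [e1, Matrix.mul_apply, Complex.re_sum, Fintype.sum_prod_type]
      have e2 : ∀ y : Fin d, ∀ a : Fin 2,
          ((K * U0)ᴴ (x, 0) (y, a) * (K * U0) (y, a) (x, 0)).re = ‖(K * U0) (y, a) (x, 0)‖ ^ 2 := by
        intro y a
        rw [conjTranspose_apply, Complex.star_def, ← Complex.normSq_eq_conj_mul_self,
          Complex.normSq_eq_norm_sq]
        exact Complex.ofReal_re _
      simp only [e2, Fin.sum_univ_two]
      have e3 : ‖(K * U0) (x, 0) (x, 0)‖ ^ 2 + ‖(K * U0) (x, 1) (x, 0)‖ ^ 2 ≤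
          ∑ y : Fin d, (‖(K * U0) (y, 0) (x, 0)‖ ^ 2 + ‖(K * U0) (y, 1) (x, 0)‖ ^ 2) :=
        Finset.single_le_sum (f := fun y => ‖(K * U0) (y, 0) (x, 0)‖ ^ 2 +
          ‖(K * U0) (y, 1) (x, 0)‖ ^ 2) (fun y _ => by positivity) (Finset.mem_univ x)
      refine le_trans (le_of_eq ?_) e3
      simp [EK]
  have h5 := h4 τ.kr
  have h6 := (Complex.le_def.1 h3).1
  rw [Complex.sub_re, Complex.one_re, Complex.zero_re] at h6
  unfold EL
  linarith

/-- The number of nonzero Kraus operators, if all of them have large rank. -/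
lemma EL_count {d R : ℕ} (U0 : Matrix (J d) (J d) ℂ) (τ : Tree d R) (hτ : τ.Valid) (r0 M : ℕ)
    (hr0 : 0 < r0) (hM : 2 * d ≤ M * r0) (hM1 : 1 ≤ M)
    (hrank : ∀ E ∈ EL U0 τ, E ≠ 0 → r0 ≤ E.rank) :
    (EL U0 τ).countP (fun E => decide (E ≠ 0)) ≤ 2 * M ^ R := by
  have h0 := count_le τ hτ r0 M hr0 hM hM1
  have h1 : ∀ l : List (Matrix (J d) (J d) ℂ),
      (∀ E ∈ l.flatMap (fun K => [EK U0 K 0, EK U0 K 1]), E ≠ 0 → r0 ≤ E.rank) →
      (l.flatMap (fun K => [EK U0 K 0, EK U0 K 1])).countP (fun E => decide (E ≠ 0)) ≤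
      2 * l.countP (fun K => decide (r0 ≤ K.rank)) := by
    intro l
    induction l with
    | nil => simp
    | cons K l ih =>
      intro h
      rw [List.flatMap_cons, List.countP_append]
      have h2 := ih (fun E hE => h E (by
        rw [List.flatMap_cons]; exact List.mem_append_right _ hE))
      have h3 : ∀ a : Fin 2, (EK U0 K a) ≠ 0 → r0 ≤ K.rank := by
        intro a ha
        have h4 : r0 ≤ (EK U0 K a).rank := by
          apply h _ _ ha
          rw [List.flatMap_cons]
          apply List.mem_append_left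
          fin_cases a <;> simp
        refine h4.trans ?_
        have h5 : (EK U0 K a).rank ≤ (K * U0).rank := by
          unfold EK
          exact Matrix.rank_submatrix_le (K * U0) (fun x => (x, a)) (fun y => (y, 0))
        exact h5.trans (Matrix.rank_mul_le_left _ _)
      by_cases hK : r0 ≤ K.rank
      · have hc : List.countP (fun K => decide (r0 ≤ K.rank)) (K :: l) =
            List.countP (fun K => decide (r0 ≤ K.rank)) l + 1 :=
          List.countP_cons_of_pos (by simpa using hK)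
        have : List.countP (fun E => decide (E ≠ 0)) [EK U0 K 0, EK U0 K 1] ≤ 2 :=
          (List.countP_le_length).trans (by simp)
        omega
      · have hc : List.countP (fun K => decide (r0 ≤ K.rank)) (K :: l) =
            List.countP (fun K => decide (r0 ≤ K.rank)) l :=
          List.countP_cons_of_neg (by simpa using hK)
        have : List.countP (fun E => decide (E ≠ 0)) [EK U0 K 0, EK U0 K 1] = 0 := by
          rw [List.countP_eq_zero]
          intro E hE
          simp only [List.mem_cons, List.not_mem_nil, or_false] at hE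
          rcases hE with rfl | rfl
          · simpa using fun hne => hK (h3 0 hne)
          · simpa using fun hne => hK (h3 1 hne)
        omega
  have h2 := h1 τ.kr hrank
  unfold EL
  omega

/-! ### Testing with rank-one inputs -/

lemma vecMulVec_conj {d : ℕ} (E : Matrix (Fin d) (Fin d) ℂ) (v : Fin d → ℂ) :
    E * vecMulVec v (star v) * Eᴴ = vecMulVec (E *ᵥ v) (star (E *ᵥ v)) := by
  rw [Matrix.mul_vecMulVec, Matrix.vecMulVec_mul, star_mulVec]

lemma sandwich_eq {d : ℕ} (E : Matrix (Fin d) (Fin d) ℂ) (v w : Fin d → ℂ) :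
    star w ⬝ᵥ ((E * vecMulVec v (star v) * Eᴴ) *ᵥ w) =
      ((‖star w ⬝ᵥ (E *ᵥ v)‖ ^ 2 : ℝ) : ℂ) := by
  rw [vecMulVec_conj]
  have h1 : vecMulVec (E *ᵥ v) (star (E *ᵥ v)) *ᵥ w =
      (star (E *ᵥ v) ⬝ᵥ w) • (E *ᵥ v) := by
    ext x
    rw [Pi.smul_apply, smul_eq_mul, mulVec, dotProduct, dotProduct, Finset.sum_mul]
    apply Finset.sum_congr rfl
    intro y _
    rw [vecMulVec_apply]
    ring
  rw [h1, dotProduct_smul, smul_eq_mul]
  have h2 : star (E *ᵥ v) ⬝ᵥ w = star (star w ⬝ᵥ (E *ᵥ v)) := by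
    rw [Matrix.star_dotProduct]
  rw [h2, Complex.star_def, ← Complex.normSq_eq_conj_mul_self, Complex.normSq_eq_norm_sq]

/-- The weight of the transition from `v` to `w`. -/
noncomputable def fn {d R : ℕ} (U0 : Matrix (J d) (J d) ℂ) (τ : Tree d R) (v w : Fin d → ℂ) : ℝ :=
  ((EL U0 τ).map (fun E => ‖star w ⬝ᵥ (E *ᵥ v)‖ ^ 2)).sum

lemma fn_eq {d R : ℕ} (U0 : Matrix (J d) (J d) ℂ) (τ : Tree d R) (hτ : τ.Valid)
    (v w : Fin d → ℂ) :
    star w ⬝ᵥ (succOut U0 τ (vecMulVec v (star v)) *ᵥ w) = (fn U0 τ v w : ℂ) := by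
  rw [succOut_eq U0 τ hτ, fn]
  generalize EL U0 τ = l
  induction l with
  | nil => simp
  | cons E l ih =>
    rw [List.map_cons, List.map_cons, List.sum_cons, List.sum_cons, add_mulVec, dotProduct_add, ih,
      sandwich_eq, Complex.ofReal_add]

lemma fn_nonneg {d R : ℕ} (U0 : Matrix (J d) (J d) ℂ) (τ : Tree d R) (v w : Fin d → ℂ) :
    0 ≤ fn U0 τ v w := by
  unfold fn
  apply List.sum_nonneg
  intro a ha
  rw [List.mem_map] at ha
  obtain ⟨E, _, rfl⟩ := ha
  positivity

lemma fn_zero {d R : ℕ} {U0 : Matrix (J d) (J d) ℂ} {τ : Tree d R} {v w : Fin d → ℂ}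
    (h : fn U0 τ v w = 0) : ∀ E ∈ EL U0 τ, star w ⬝ᵥ (E *ᵥ v) = 0 := by
  unfold fn at h
  intro E hE
  have h1 : ‖star w ⬝ᵥ (E *ᵥ v)‖ ^ 2 ≤ 0 := by
    rw [← h]
    apply List.single_le_sum
    · intro a ha
      rw [List.mem_map] at ha
      obtain ⟨E, _, rfl⟩ := ha
      positivity
    · exact List.mem_map_of_mem hE
  have h2 : ‖star w ⬝ᵥ (E *ᵥ v)‖ = 0 := by
    have := norm_nonneg (star w ⬝ᵥ (E *ᵥ v))
    nlinarith
  exact norm_eq_zero.1 h2

lemma succOut_smul {d R : ℕ} (U0 : Matrix (J d) (J d) ℂ) (τ : Tree d R) (hτ : τ.Valid)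
    (ρ : Matrix (Fin d) (Fin d) ℂ) (a : ℂ) :
    succOut U0 τ (a • ρ) = a • succOut U0 τ ρ := by
  rw [succOut_eq U0 τ hτ, succOut_eq U0 τ hτ]
  generalize EL U0 τ = l
  induction l with
  | nil => simp
  | cons E l ih =>
    rw [List.map_cons, List.map_cons, List.sum_cons, List.sum_cons, ih, smul_add]
    congr 1
    rw [Matrix.mul_smul, Matrix.smul_mul]

lemma density_rank_one {d : ℕ} (v : Fin d → ℂ) (hv : v ≠ 0) :
    ∃ s : ℝ, 0 < s ∧ IsDensity (((s⁻¹ : ℝ) : ℂ) • vecMulVec v (star v)) := by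
  have h1 : (vecMulVec v (star v)).trace = ((∑ x, ‖v x‖ ^ 2 : ℝ) : ℂ) := by
    rw [Matrix.trace]
    push_cast
    apply Finset.sum_congr rfl
    intro x _
    rw [Matrix.diag_apply, vecMulVec_apply, Pi.star_apply, Complex.star_def, mul_comm,
      ← Complex.normSq_eq_conj_mul_self, Complex.normSq_eq_norm_sq]
    push_cast
    rfl
  have h2 : 0 < ∑ x, ‖v x‖ ^ 2 := by
    obtain ⟨x, hx⟩ := Function.ne_iff.1 hv
    apply Finset.sum_pos' (fun x _ => by positivity)
    exact ⟨x, Finset.mem_univ x, by have := norm_pos_iff.2 hx; positivity⟩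
  refine ⟨_, h2, ?_, ?_⟩
  · apply PosSemidef.smul (Matrix.posSemidef_vecMulVec_self_star v)
    rw [Complex.zero_le_real]
    positivity
  · rw [trace_smul, h1, smul_eq_mul, ← Complex.ofReal_mul, inv_mul_cancel₀ h2.ne',
      Complex.ofReal_one]

section Sim

variable {d R : ℕ} {Φ : Matrix (Fin d) (Fin d) ℂ →ₗ[ℂ] Matrix (Fin d) (Fin d) ℂ} {q : ℝ}
  {Ω : Type} [MeasurableSpace Ω] {μ : Measure Ω} {U0 : Ω → Matrix (J d) (J d) ℂ}
  {τ : Ω → Tree d R}

lemma Simulates.rank_one (h : Simulates Φ q Ω μ U0 τ) (v : Fin d → ℂ) (x y : Fin d) :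
    Integrable (fun ω => succOut (U0 ω) (τ ω) (vecMulVec v (star v)) x y) μ ∧
    ∫ ω, succOut (U0 ω) (τ ω) (vecMulVec v (star v)) x y ∂μ =
      q * Φ (vecMulVec v (star v)) x y := by
  by_cases hv : v = 0
  · subst hv
    have h0 : vecMulVec (0 : Fin d → ℂ) (star (0 : Fin d → ℂ)) = 0 := by
      ext x y; simp [vecMulVec_apply]
    have h1 : ∀ ω, succOut (U0 ω) (τ ω) (vecMulVec (0 : Fin d → ℂ) (star (0 : Fin d → ℂ))) = 0 := by
      intro ω
      rw [h0]
      have := succOut_smul (U0 ω) (τ ω) (h.valid ω) 0 0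
      simpa using this
    simp only [h1]
    rw [h0, map_zero]
    simp
  · obtain ⟨s, hs, hd⟩ := density_rank_one v hv
    have hs' : (s : ℂ) ≠ 0 := by exact_mod_cast hs.ne'
    have e1 : ∀ ω, succOut (U0 ω) (τ ω) (vecMulVec v (star v)) x y =
        s * succOut (U0 ω) (τ ω) (((s⁻¹ : ℝ) : ℂ) • vecMulVec v (star v)) x y := by
      intro ω
      rw [succOut_smul _ _ (h.valid ω), Matrix.smul_apply, smul_eq_mul, ← mul_assoc,
        Complex.ofReal_inv, mul_inv_cancel₀ hs', one_mul]
    simp only [e1]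
    refine ⟨(h.integrable _ hd x y).const_mul _, ?_⟩
    rw [integral_const_mul, h.output _ hd x y, map_smul, Matrix.smul_apply, smul_eq_mul,
      Complex.ofReal_inv]
    field_simp

lemma Simulates.fn_int (h : Simulates Φ q Ω μ U0 τ) (v w : Fin d → ℂ) :
    Integrable (fun ω => fn (U0 ω) (τ ω) v w) μ ∧
    ((∫ ω, fn (U0 ω) (τ ω) v w ∂μ : ℝ) : ℂ) =
      q * (star w ⬝ᵥ (Φ (vecMulVec v (star v)) *ᵥ w)) := by
  have e1 : ∀ ω, (fn (U0 ω) (τ ω) v w : ℂ) =
      ∑ x, ∑ y, star (w x) * (succOut (U0 ω) (τ ω) (vecMulVec v (star v)) x y * w y) := by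
    intro ω
    rw [← fn_eq _ _ (h.valid ω)]
    simp only [dotProduct, mulVec, Finset.mul_sum, Pi.star_apply]
  have hI : ∀ x y, Integrable (fun ω =>
      star (w x) * (succOut (U0 ω) (τ ω) (vecMulVec v (star v)) x y * w y)) μ := fun x y =>
    ((h.rank_one v x y).1.mul_const _).const_mul _
  have hI2 : Integrable (fun ω => (fn (U0 ω) (τ ω) v w : ℂ)) μ := by
    simp only [e1]
    exact integrable_finsetSum _ (fun x _ => integrable_finsetSum _ (fun y _ => hI x y))
  refine ⟨?_, ?_⟩
  · simpa using hI2.re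
  · rw [← integral_complex_ofReal]
    simp only [e1]
    rw [integral_finsetSum _ (fun x _ => integrable_finsetSum _ (fun y _ => hI x y))]
    simp only [dotProduct, mulVec, Finset.mul_sum, Pi.star_apply]
    apply Finset.sum_congr rfl
    intro x _
    rw [integral_finsetSum _ (fun y _ => hI x y)]
    apply Finset.sum_congr rfl
    intro y _
    rw [integral_const_mul, integral_mul_const, (h.rank_one v x y).2]
    ring

end Sim

/-! ### The channel -/

section Channel

variable {N d : ℕ} (S : Fin d → Finset (Fin N)) (t : ℕ)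

/-- Projection onto the span of the basis vectors whose label contains `k`. -/
noncomputable def Pk (k : Fin N) : Matrix (Fin d) (Fin d) ℂ :=
  diagonal (fun x => if k ∈ S x then 1 else 0)

/-- The mixed-dephasing channel `X ↦ (1/t) ∑ₖ Pₖ X Pₖ`. -/
noncomputable def Phi : Matrix (Fin d) (Fin d) ℂ →ₗ[ℂ] Matrix (Fin d) (Fin d) ℂ where
  toFun X := (t : ℂ)⁻¹ • ∑ k, Pk S k * X * (Pk S k)ᴴ
  map_add' X Y := by
    simp only [mul_add, add_mul, Finset.sum_add_distrib, smul_add]
  map_smul' a X := by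
    simp only [Matrix.mul_smul, Matrix.smul_mul, ← Finset.smul_sum, RingHom.id_apply]
    rw [smul_comm]

lemma Phi_apply (X : Matrix (Fin d) (Fin d) ℂ) :
    Phi S t X = (t : ℂ)⁻¹ • ∑ k, Pk S k * X * (Pk S k)ᴴ := rfl

lemma Phi_channel (ht : 0 < t) (hS : ∀ x, (S x).card = t) : IsChannel (Phi S t) := by
  refine ⟨?_, ?_⟩
  · intro r Z hZ
    have h1 : ampl r (Phi S t) Z = (t : ℂ)⁻¹ • ∑ k,
        ((1 : Matrix (Fin r) (Fin r) ℂ) ⊗ₖ Pk S k) * Z *
          ((1 : Matrix (Fin r) (Fin r) ℂ) ⊗ₖ Pk S k)ᴴ := by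
      ext ⟨a, x⟩ ⟨b, y⟩
      rw [ampl, Matrix.of_apply, Phi_apply, Matrix.smul_apply, Matrix.smul_apply,
        Matrix.sum_apply, Matrix.sum_apply]
      congr 1
      apply Finset.sum_congr rfl
      intro k _
      have e1 : (1 : Matrix (Fin r) (Fin r) ℂ) ⊗ₖ Pk S k =
          diagonal (fun p : Fin r × Fin d => if k ∈ S p.2 then (1 : ℂ) else 0) := by
        ext ⟨a, x⟩ ⟨b, y⟩
        simp only [kroneckerMap_apply, Pk, diagonal_apply, Matrix.one_apply, Prod.mk.injEq]
        by_cases h1 : a = b <;> by_cases h2 : x = y <;> simp [h1, h2]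
      rw [e1]
      simp only [Pk, diagonal_conjTranspose, mul_diagonal, diagonal_mul, Matrix.of_apply,
        Pi.star_apply]
    rw [h1]
    apply PosSemidef.smul
    · apply Matrix.posSemidef_sum
      intro k _
      exact hZ.mul_mul_conjTranspose_same _
    · rw [← Complex.ofReal_natCast, ← Complex.ofReal_inv, Complex.zero_le_real]
      positivity
  · intro X
    rw [Phi_apply, trace_smul, trace_sum]
    have h1 : ∀ k, (Pk S k * X * (Pk S k)ᴴ).trace = ∑ x, if k ∈ S x then X x x else 0 := by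
      intro k
      rw [Matrix.trace]
      apply Finset.sum_congr rfl
      intro x _
      rw [Matrix.diag_apply]
      simp only [Pk, diagonal_conjTranspose, mul_diagonal, diagonal_mul, Pi.star_apply]
      by_cases h : k ∈ S x <;> simp [h]
    simp only [h1]
    rw [Finset.sum_comm]
    have h2 : ∀ x, (∑ k, if k ∈ S x then X x x else 0) = t * X x x := by
      intro x
      rw [Finset.sum_ite_mem, Finset.univ_inter, Finset.sum_const, hS, nsmul_eq_mul]
    simp only [h2]
    rw [← Finset.mul_sum, smul_eq_mul, ← mul_assoc, inv_mul_cancel₀ (by exact_mod_cast ht.ne'),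
      one_mul, Matrix.trace]
    rfl

lemma Phi_test (v w : Fin d → ℂ) :
    star w ⬝ᵥ (Phi S t (vecMulVec v (star v)) *ᵥ w) =
      (((t : ℝ)⁻¹ * ∑ k, ‖star w ⬝ᵥ (Pk S k *ᵥ v)‖ ^ 2 : ℝ) : ℂ) := by
  rw [Phi_apply, smul_mulVec, dotProduct_smul, smul_eq_mul, Complex.ofReal_mul,
    Complex.ofReal_inv, Complex.ofReal_natCast]
  congr 1
  rw [Matrix.sum_mulVec, dotProduct_sum, Complex.ofReal_sum]
  apply Finset.sum_congr rfl
  intro k _
  rw [sandwich_eq]

end Channel

section Sim2

variable {N d R : ℕ} {S : Fin d → Finset (Fin N)} {t : ℕ} {q : ℝ}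
  {Ω : Type} [MeasurableSpace Ω] {μ : Measure Ω} {U0 : Ω → Matrix (J d) (J d) ℂ}
  {τ : Ω → Tree d R}

lemma Sim_int (h : Simulates (Phi S t) q Ω μ U0 τ) (v w : Fin d → ℂ) :
    ∫ ω, fn (U0 ω) (τ ω) v w ∂μ = q * ((t : ℝ)⁻¹ * ∑ k, ‖star w ⬝ᵥ (Pk S k *ᵥ v)‖ ^ 2) := by
  have h1 := (h.fn_int v w).2
  rw [Phi_test] at h1
  exact_mod_cast h1

lemma Sim_ae_zero (h : Simulates (Phi S t) q Ω μ U0 τ) (v w : Fin d → ℂ)
    (hz : ∀ k, star w ⬝ᵥ (Pk S k *ᵥ v) = 0) :
    ∀ᵐ ω ∂μ, ∀ E ∈ EL (U0 ω) (τ ω), star w ⬝ᵥ (E *ᵥ v) = 0 := by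
  have h1 := Sim_int h v w
  simp only [hz, norm_zero] at h1
  have h2 : ∫ ω, fn (U0 ω) (τ ω) v w ∂μ = 0 := by
    rw [h1]; simp
  rw [integral_eq_zero_iff_of_nonneg (fun ω => fn_nonneg _ _ _ _) (h.fn_int v w).1] at h2
  filter_upwards [h2] with ω hω
  exact fn_zero hω

/-- Almost surely, all Kraus operators are diagonal. -/
lemma Sim_diag (h : Simulates (Phi S t) q Ω μ U0 τ) :
    ∀ᵐ ω ∂μ, ∀ E ∈ EL (U0 ω) (τ ω), ∀ x y, x ≠ y → E x y = 0 := by
  have h1 : ∀ x y : Fin d, x ≠ y → ∀ᵐ ω ∂μ, ∀ E ∈ EL (U0 ω) (τ ω), E x y = 0 := by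
    intro x y hxy
    have h2 := Sim_ae_zero h (Pi.single y 1) (Pi.single x 1) (by
      intro k
      rw [← Pi.single_star, single_dotProduct, Matrix.mulVec_single]
      simp [Pk, hxy])
    filter_upwards [h2] with ω hω
    intro E hE
    have h3 := hω E hE
    rw [← Pi.single_star, single_dotProduct, Matrix.mulVec_single] at h3
    simpa using h3
  have h4 : ∀ᵐ ω ∂μ, ∀ x y : Fin d, x ≠ y → ∀ E ∈ EL (U0 ω) (τ ω), E x y = 0 := by
    rw [ae_all_iff]; intro x
    rw [ae_all_iff]; intro y
    by_cases hxy : x = y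
    · simp [hxy]
    · filter_upwards [h1 x y hxy] with ω hω
      exact fun _ => hω
  filter_upwards [h4] with ω hω
  exact fun E hE x y hxy => hω x y hxy E hE

/-- Almost surely, the diagonals are sums over the labels. -/
lemma Sim_span (h : Simulates (Phi S t) q Ω μ U0 τ) :
    ∀ᵐ ω ∂μ, ∀ E ∈ EL (U0 ω) (τ ω), ∃ c : Fin N → ℂ, ∀ x, E x x = ∑ i ∈ S x, c i := by
  classical
  set p : Fin N → (Fin d → ℂ) := fun k x => if k ∈ S x then 1 else 0 with hp
  set W : Submodule ℂ (Fin d → ℂ) := Submodule.span ℂ (Set.range p) with hW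
  obtain ⟨s, hs⟩ : W.dualAnnihilator.FG := IsNoetherian.noetherian _
  have h1 : ∀ φ ∈ s, ∀ᵐ ω ∂μ, ∀ E ∈ EL (U0 ω) (τ ω), φ (E *ᵥ 1) = 0 := by
    intro φ hφ
    have hφ' : φ ∈ W.dualAnnihilator := by
      rw [← hs]; exact Submodule.subset_span hφ
    rw [Submodule.mem_dualAnnihilator] at hφ'
    have h2 : ∀ u : Fin d → ℂ, φ u =
        star (fun x => star (φ (Pi.single x 1))) ⬝ᵥ u := by
      intro u
      conv_lhs => rw [← Finset.univ_sum_single u]
      rw [map_sum]
      simp only [dotProduct, Pi.star_apply, star_star]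
      apply Finset.sum_congr rfl
      intro x _
      have : Pi.single x (u x) = (u x) • (Pi.single x (1 : ℂ) : Fin d → ℂ) := by
        rw [← Pi.single_smul, smul_eq_mul, mul_one]
      rw [this, map_smul, smul_eq_mul, mul_comm]
    have h3 := Sim_ae_zero h 1 (fun x => star (φ (Pi.single x 1))) (by
      intro k
      rw [← h2]
      apply hφ'
      have : Pk S k *ᵥ 1 = p k := by
        ext x
        simp [Pk, hp, mulVec_diagonal]
      rw [this]
      exact Submodule.subset_span ⟨k, rfl⟩)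
    filter_upwards [h3] with ω hω
    intro E hE
    rw [h2]
    exact hω E hE
  have h4 : ∀ᵐ ω ∂μ, ∀ φ ∈ s, ∀ E ∈ EL (U0 ω) (τ ω), φ (E *ᵥ 1) = 0 := by
    rw [Filter.eventually_all_finset]
    exact h1
  filter_upwards [h4, Sim_diag h] with ω hω hd
  intro E hE
  have h5 : E *ᵥ 1 = fun x => E x x := by
    ext x
    simp only [mulVec, dotProduct, Pi.one_apply, mul_one]
    exact Finset.sum_eq_single x (fun y _ hy => hd E hE x y hy.symm) (by simp)
  have h6 : (E *ᵥ 1) ∈ W := by
    rw [← Subspace.forall_mem_dualAnnihilator_apply_eq_zero_iff W]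
    intro φ hφ
    rw [← hs] at hφ
    induction hφ using Submodule.span_induction with
    | mem φ hφ => exact hω φ hφ E hE
    | zero => simp
    | add a b _ _ ha hb => rw [LinearMap.add_apply, ha, hb, add_zero]
    | smul a b _ hb => rw [LinearMap.smul_apply, hb, smul_zero]
  rw [h5, hW, Submodule.mem_span_range_iff_exists_fun] at h6
  obtain ⟨c, hc⟩ := h6
  refine ⟨c, fun x => ?_⟩
  have h7 := congrFun hc x
  rw [← h7]
  simp only [hp, Finset.sum_apply, Pi.smul_apply, smul_eq_mul, mul_ite, mul_one, mul_zero]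
  rw [Finset.sum_ite_mem, Finset.univ_inter]

end Sim2

/-! ### Counting and ranks -/

lemma choose_id (N t : ℕ) (ht : 1 ≤ t) (htN : t < N) :
    N.choose t * (t * (N - t)) = N * (N - 1) * (N - 2).choose (t - 1) := by
  obtain ⟨s, rfl⟩ : ∃ s, t = s + 1 := ⟨t - 1, by omega⟩
  obtain ⟨n, rfl⟩ : ∃ n, N = n + 2 := ⟨N - 2, by omega⟩
  have h1 := Nat.add_one_mul_choose_eq (n + 1) s
  have h2 := Nat.choose_mul_succ_eq n s
  have e1 : n + 2 - (s + 1) = n + 1 - s := by omega
  have e2 : n + 2 - 1 = n + 1 := by omega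
  have e3 : n + 2 - 2 = n := by omega
  have e4 : s + 1 - 1 = s := by omega
  rw [e1, e2, e3, e4]
  calc (n + 2).choose (s + 1) * ((s + 1) * (n + 1 - s))
      = ((n + 1 + 1).choose (s + 1) * (s + 1)) * (n + 1 - s) := by ring
    _ = ((n + 1 + 1) * (n + 1).choose s) * (n + 1 - s) := by rw [h1]
    _ = (n + 2) * ((n + 1).choose s * (n + 1 - s)) := by ring
    _ = (n + 2) * (n.choose s * (n + 1)) := by rw [h2]
    _ = (n + 2) * (n + 1) * n.choose s := by ring

lemma choose_bound (κ t : ℕ) (hκ : 3 ≤ κ) (ht : 1 ≤ t) :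
    2 * (κ * t).choose t ≤ 4 * κ * (κ * t - 2).choose (t - 1) := by
  have h0 : 3 * t ≤ κ * t := Nat.mul_le_mul_right _ hκ
  have h1 := choose_id (κ * t) t ht (by omega)
  have hp : 0 < t * (κ * t - t) := Nat.mul_pos (by omega) (by omega)
  apply Nat.le_of_mul_le_mul_right _ hp
  calc 2 * (κ * t).choose t * (t * (κ * t - t))
      = 2 * ((κ * t).choose t * (t * (κ * t - t))) := by ring
    _ = 2 * (κ * t * (κ * t - 1) * (κ * t - 2).choose (t - 1)) := by rw [h1]
    _ = (κ * t - 1) * (2 * (κ * t) * (κ * t - 2).choose (t - 1)) := by ring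
    _ ≤ (2 * (κ * t - t)) * (2 * (κ * t) * (κ * t - 2).choose (t - 1)) := by
        apply Nat.mul_le_mul_right; omega
    _ = 4 * κ * (κ * t - 2).choose (t - 1) * (t * (κ * t - t)) := by ring

section Rank

variable {N d t : ℕ} {S : Fin d → Finset (Fin N)}

lemma rank_ge (hS : ∀ x, (S x).card = t) (hsurj : ∀ T : Finset (Fin N), T.card = t → ∃ x, S x = T)
    (ht : 1 ≤ t) (hN : 2 ≤ N) (E : Matrix (Fin d) (Fin d) ℂ) (hE : ∀ x y, x ≠ y → E x y = 0)
    (hE0 : E ≠ 0) (c : Fin N → ℂ) (hc : ∀ x, E x x = ∑ i ∈ S x, c i) :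
    (N - 2).choose (t - 1) ≤ E.rank := by
  classical
  set f : Fin d → ℂ := fun x => E x x with hf
  have hEd : E = diagonal f := by
    ext x y
    by_cases hxy : x = y
    · subst hxy; simp [hf]
    · rw [hE x y hxy, diagonal_apply_ne _ hxy]
  have hrank : E.rank = (Finset.univ.filter (fun x => f x ≠ 0)).card := by
    rw [hEd, Matrix.rank_diagonal, Fintype.card_subtype]
  -- choose the pair
  have hpair : ∃ i j : Fin N, i ≠ j ∧ ∀ A : Finset (Fin N), A ⊆ Finset.univ \ {i, j} →
      A.card = t - 1 → (∑ k ∈ insert i A, c k ≠ 0 ∨ ∑ k ∈ insert j A, c k ≠ 0) := by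
    by_cases hall : ∀ i j : Fin N, c i = c j
    · refine ⟨⟨0, by omega⟩, ⟨1, by omega⟩, by simp [Fin.ext_iff], ?_⟩
      intro A hA hAc
      left
      have hx : ∃ x, f x ≠ 0 := by
        by_contra hcon
        push Not at hcon
        apply hE0
        rw [hEd]
        ext x y
        by_cases hxy : x = y
        · subst hxy; simp [hcon]
        · simp [diagonal_apply_ne _ hxy]
      obtain ⟨x, hx⟩ := hx
      have h1 : ∀ B : Finset (Fin N), B.card = t → ∑ k ∈ B, c k = t * c ⟨0, by omega⟩ := by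
        intro B hB
        rw [Finset.sum_congr rfl (fun k _ => hall k ⟨0, by omega⟩), Finset.sum_const, hB,
          nsmul_eq_mul]
      have h2 : ((⟨0, by omega⟩ : Fin N)) ∉ A := by
        intro h
        have := hA h
        simp at this
      rw [h1 _ (by rw [Finset.card_insert_of_notMem h2]; omega)]
      have h3 : f x = t * c ⟨0, by omega⟩ := by
        rw [hf]; simp only; rw [hc x, h1 _ (hS x)]
      rwa [← h3]
    · push Not at hall
      obtain ⟨i, j, hij⟩ := hall
      have hne : i ≠ j := fun h => hij (by rw [h])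
      refine ⟨i, j, hne, ?_⟩
      intro A hA hAc
      have hi : i ∉ A := by
        intro h
        have := hA h
        simp at this
      have hj : j ∉ A := by
        intro h
        have := hA h
        simp at this
      by_contra hcon
      push Not at hcon
      rw [Finset.sum_insert hi, Finset.sum_insert hj] at hcon
      apply hij
      have := hcon.1.trans hcon.2.symm
      exact add_right_cancel this
  obtain ⟨i, j, hij, hA⟩ := hpair
  -- the inverse of `S`
  have hinv : ∀ T : Finset (Fin N), ∃ x, T.card = t → S x = T := by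
    intro T
    by_cases hT : T.card = t
    · obtain ⟨x, hx⟩ := hsurj T hT
      exact ⟨x, fun _ => hx⟩
    · have hd : 0 < d := by
        rcases Nat.eq_zero_or_pos d with h | h
        · subst h
          exact absurd (Matrix.ext fun x _ => x.elim0) hE0
        · exact h
      exact ⟨⟨0, hd⟩, fun h => absurd h hT⟩
  choose g hg using hinv
  rw [hrank]
  have hcard : ((Finset.univ \ {i, j} : Finset (Fin N)).powersetCard (t - 1)).card =
      (N - 2).choose (t - 1) := by
    rw [Finset.card_powersetCard, Finset.card_sdiff_of_subset (Finset.subset_univ _),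
      Finset.card_univ, Fintype.card_fin, Finset.card_pair hij]
  rw [← hcard]
  apply Finset.card_le_card_of_injOn
    (fun A => if ∑ k ∈ insert i A, c k ≠ 0 then g (insert i A) else g (insert j A))
  · intro A hAm
    rw [Finset.mem_coe, Finset.mem_powersetCard] at hAm
    obtain ⟨hAs, hAc⟩ := hAm
    have hi : i ∉ A := by
      intro h
      have := hAs h
      simp at this
    have hj : j ∉ A := by
      intro h
      have := hAs h
      simp at this
    have hgi : S (g (insert i A)) = insert i A :=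
      hg _ (by rw [Finset.card_insert_of_notMem hi]; omega)
    have hgj : S (g (insert j A)) = insert j A :=
      hg _ (by rw [Finset.card_insert_of_notMem hj]; omega)
    simp only [Finset.coe_filter, Finset.mem_univ, true_and, Set.mem_ofPred_eq]
    split_ifs with h
    · rw [hf]; simp only; rw [hc, hgi]; exact h
    · rw [hf]; simp only; rw [hc, hgj]
      exact (hA A hAs hAc).resolve_left (by simpa using h)
  · intro A hAm B hBm hAB
    rw [Finset.mem_coe, Finset.mem_powersetCard] at hAm hBm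
    have key : ∀ A : Finset (Fin N), A ⊆ Finset.univ \ {i, j} → A.card = t - 1 →
        S (if ∑ k ∈ insert i A, c k ≠ 0 then g (insert i A) else g (insert j A)) \ {i, j} = A := by
      intro A hAs hAc
      have hi : i ∉ A := by
        intro h
        have := hAs h
        simp at this
      have hj : j ∉ A := by
        intro h
        have := hAs h
        simp at this
      have hgi : S (g (insert i A)) = insert i A :=
        hg _ (by rw [Finset.card_insert_of_notMem hi]; omega)
      have hgj : S (g (insert j A)) = insert j A :=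
        hg _ (by rw [Finset.card_insert_of_notMem hj]; omega)
      split_ifs with h
      · rw [hgi]
        ext k
        simp only [Finset.mem_sdiff, Finset.mem_insert, Finset.mem_singleton, not_or]
        constructor
        · rintro ⟨h1 | h1, h2, h3⟩
          · exact absurd h1 h2
          · exact h1
        · intro h1
          exact ⟨Or.inr h1, fun h2 => hi (h2 ▸ h1), fun h2 => hj (h2 ▸ h1)⟩
      · rw [hgj]
        ext k
        simp only [Finset.mem_sdiff, Finset.mem_insert, Finset.mem_singleton, not_or]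
        constructor
        · rintro ⟨h1 | h1, h2, h3⟩
          · exact absurd h1 h3
          · exact h1
        · intro h1
          exact ⟨Or.inr h1, fun h2 => hi (h2 ▸ h1), fun h2 => hj (h2 ▸ h1)⟩
    rw [← key A hAm.1 hAm.2, ← key B hBm.1 hBm.2]
    simp only at hAB
    rw [hAB]

end Rank

lemma sum_filter_ne {d : ℕ} (l : List (Matrix (Fin d) (Fin d) ℂ))
    (f : Matrix (Fin d) (Fin d) ℂ → ℝ) (hf : f 0 = 0) :
    ((l.filter (fun E => decide (E ≠ 0))).map f).sum = (l.map f).sum := by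
  induction l with
  | nil => simp
  | cons E l ih =>
    by_cases h : E = 0
    · rw [List.filter_cons_of_neg (by simpa using h), ih, List.map_cons, List.sum_cons, h, hf,
        zero_add]
    · rw [List.filter_cons_of_pos (by simpa using h), List.map_cons, List.map_cons, List.sum_cons,
        List.sum_cons, ih]

section Main

variable {N d R t : ℕ} {S : Fin d → Finset (Fin N)} {q : ℝ}
  {Ω : Type} [MeasurableSpace Ω] {μ : Measure Ω} {U0 : Ω → Matrix (J d) (J d) ℂ}
  {τ : Ω → Tree d R}

lemma test_diag (E : Matrix (Fin d) (Fin d) ℂ) (hE : ∀ x y, x ≠ y → E x y = 0) {a b : Fin d}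
    (hab : a ≠ b) :
    star (Pi.single a 1 - Pi.single b 1 : Fin d → ℂ) ⬝ᵥ
      (E *ᵥ (Pi.single a 1 + Pi.single b 1 : Fin d → ℂ)) = E a a - E b b := by
  rw [star_sub, ← Pi.single_star, ← Pi.single_star, star_one, mulVec_add, sub_dotProduct,
    single_dotProduct, single_dotProduct, Pi.add_apply, Pi.add_apply, mulVec_single,
    mulVec_single]
  simp [hE a b hab, hE b a hab.symm]

/-- The pointwise bound on the sum of all the test functionals. -/
lemma pointwise (hS : ∀ x, (S x).card = t)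
    (hsurj : ∀ T : Finset (Fin N), T.card = t → ∃ x, S x = T) (ht : 1 ≤ t)
    {r M : ℕ} {δ : ℝ} (hδ : 2 < (r + 1) * δ) (hr : r + 1 ≤ t) (hN : 2 * t < N)
    (hM : 2 * d ≤ M * (N - 2).choose (t - 1)) (hM1 : 1 ≤ M) (hn : 4 * (2 * M ^ R) * r ≤ t)
    (U : Matrix (J d) (J d) ℂ) (hU : U ∈ Matrix.unitaryGroup (J d) ℂ) (T : Tree d R)
    (hT : T.Valid) (hdiag : ∀ E ∈ EL U T, ∀ x y, x ≠ y → E x y = 0)
    (hspan : ∀ E ∈ EL U T, ∃ c : Fin N → ℂ, ∀ x, E x x = ∑ i ∈ S x, c i)
    (a b : Fin N × Fin N → Fin d)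
    (hab : ∀ p : Fin N × Fin N, p.1 ≠ p.2 → ∃ A : Finset (Fin N), p.1 ∉ A ∧ p.2 ∉ A ∧
      S (a p) = insert p.1 A ∧ S (b p) = insert p.2 A) :
    ∑ p ∈ (Finset.univ : Finset (Fin N)).offDiag,
      fn U T (Pi.single (a p) 1 + Pi.single (b p) 1) (Pi.single (a p) 1 - Pi.single (b p) 1) ≤
      4 * N * (8 + 6 * δ ^ 2 * N * (2 * M ^ R : ℕ)) := by
  classical
  have hδ0 : 0 < δ := by
    by_contra h
    have : (r + 1 : ℝ) * δ ≤ 0 := mul_nonpos_of_nonneg_of_nonpos (by positivity) (not_lt.1 h)
    linarith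
  set L := (EL U T).filter (fun E => decide (E ≠ 0)) with hL
  have hLmem : ∀ l : Fin L.length, L.get l ∈ EL U T := fun l =>
    (List.mem_filter.1 (List.get_mem L l)).1
  have hlen : L.length ≤ 2 * M ^ R := by
    rw [hL, ← List.countP_eq_length_filter]
    apply EL_count U T hT ((N - 2).choose (t - 1)) M (Nat.choose_pos (by omega)) hM hM1
    intro E hE hE0
    obtain ⟨c, hc⟩ := hspan E hE
    exact rank_ge hS hsurj ht (by omega) E (hdiag E hE) hE0 c hc
  have hex : ∀ l : Fin L.length, ∃ c : Fin N → ℂ, ∀ x, L.get l x x = ∑ i ∈ S x, c i :=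
    fun l => hspan _ (hLmem l)
  choose c hc using hex
  have hsum : ∀ f : Matrix (Fin d) (Fin d) ℂ → ℝ, f 0 = 0 →
      ((EL U T).map f).sum = ∑ l : Fin L.length, f (L.get l) := by
    intro f hf
    rw [← sum_filter_ne _ f hf, ← hL]
    rw [← List.sum_ofFn]
    congr 1
    rw [List.ofFn_eq_map]
    conv_lhs => rw [← List.map_get_finRange (l := L), List.map_map]
    rfl
  have hcomb := Q233.SimComb.comb (N := N) (t := t) (n := L.length) (r := r) c hδ (by
    intro T' hT'
    obtain ⟨x, hx⟩ := hsurj T' hT'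
    have h1 := EL_diag hU T hT x
    rw [hsum (fun E => ‖E x x‖ ^ 2) (by simp)] at h1
    refine le_trans (le_of_eq ?_) h1
    apply Finset.sum_congr rfl
    intro l _
    rw [hc l x, hx]) hr hN (by
      refine le_trans ?_ hn
      apply Nat.mul_le_mul_right
      omega)
  have h2 : ∀ p ∈ (Finset.univ : Finset (Fin N)).offDiag,
      fn U T (Pi.single (a p) 1 + Pi.single (b p) 1) (Pi.single (a p) 1 - Pi.single (b p) 1) =
      ∑ l, ‖c l p.1 - c l p.2‖ ^ 2 := by
    intro p hp
    rw [Finset.mem_offDiag] at hp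
    obtain ⟨A, hA1, hA2, hSa, hSb⟩ := hab p hp.2.2
    have hne : a p ≠ b p := by
      intro h
      rw [← h, hSa] at hSb
      have : p.1 ∈ insert p.2 A := by rw [← hSb]; exact Finset.mem_insert_self _ _
      rw [Finset.mem_insert] at this
      rcases this with h | h
      · exact hp.2.2 h
      · exact hA1 h
    unfold fn
    rw [hsum _ (by simp)]
    apply Finset.sum_congr rfl
    intro l _
    rw [test_diag _ (hdiag _ (hLmem l)) hne, hc l, hc l, hSa, hSb, Finset.sum_insert hA1,
      Finset.sum_insert hA2, add_sub_add_right_eq_sub]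
  rw [Finset.sum_congr rfl h2]
  calc ∑ p ∈ (Finset.univ : Finset (Fin N)).offDiag, ∑ l, ‖c l p.1 - c l p.2‖ ^ 2
      ≤ ∑ p : Fin N × Fin N, ∑ l, ‖c l p.1 - c l p.2‖ ^ 2 :=
        Finset.sum_le_sum_of_subset_of_nonneg (Finset.subset_univ _)
          (fun p _ _ => Finset.sum_nonneg (fun l _ => by positivity))
    _ = ∑ l, ∑ i, ∑ j, ‖c l i - c l j‖ ^ 2 := by
        rw [Finset.sum_comm]
        apply Finset.sum_congr rfl
        intro l _
        rw [Fintype.sum_prod_type]
    _ ≤ 4 * N * (8 + 6 * δ ^ 2 * N * L.length) := hcomb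
    _ ≤ 4 * N * (8 + 6 * δ ^ 2 * N * (2 * M ^ R : ℕ)) := by
        have : (L.length : ℝ) ≤ (2 * M ^ R : ℕ) := by exact_mod_cast hlen
        gcongr

/-- The upper bound on the success probability. -/
lemma q_bound [IsProbabilityMeasure μ] (h : Simulates (Phi S t) q Ω μ U0 τ)
    (hS : ∀ x, (S x).card = t)
    (hsurj : ∀ T : Finset (Fin N), T.card = t → ∃ x, S x = T) (ht : 1 ≤ t)
    {r M : ℕ} {δ : ℝ} (hδ : 2 < (r + 1) * δ) (hr : r + 1 ≤ t) (hN : 2 * t < N)
    (hM : 2 * d ≤ M * (N - 2).choose (t - 1)) (hM1 : 1 ≤ M) (hn : 4 * (2 * M ^ R) * r ≤ t) :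
    q * (2 / t) * (N * N - N) ≤ 4 * N * (8 + 6 * δ ^ 2 * N * (2 * M ^ R : ℕ)) := by
  classical
  -- the test pairs
  have hex : ∀ p : Fin N × Fin N, ∃ ab : Fin d × Fin d, p.1 ≠ p.2 → ∃ A : Finset (Fin N),
      p.1 ∉ A ∧ p.2 ∉ A ∧ S ab.1 = insert p.1 A ∧ S ab.2 = insert p.2 A := by
    intro p
    obtain ⟨T0, hT0⟩ : ∃ T0 : Finset (Fin N), T0.card = t := by
      obtain ⟨T0, _, hT0⟩ := Finset.exists_subset_card_eq
        (s := (Finset.univ : Finset (Fin N))) (n := t) (by
          rw [Finset.card_univ, Fintype.card_fin]; omega)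
      exact ⟨T0, hT0⟩
    obtain ⟨x0, _⟩ := hsurj T0 hT0
    by_cases hp : p.1 = p.2
    · exact ⟨(x0, x0), fun h => absurd hp h⟩
    · obtain ⟨A, hA1, hA2⟩ := Finset.exists_subset_card_eq
        (s := (Finset.univ \ {p.1, p.2} : Finset (Fin N))) (n := t - 1) (by
          rw [Finset.card_sdiff_of_subset (Finset.subset_univ _),
            Finset.card_univ, Fintype.card_fin, Finset.card_pair hp]; omega)
      have hi : p.1 ∉ A := by
        intro h
        have := hA1 h
        simp at this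
      have hj : p.2 ∉ A := by
        intro h
        have := hA1 h
        simp at this
      obtain ⟨x, hx⟩ := hsurj (insert p.1 A) (by rw [Finset.card_insert_of_notMem hi]; omega)
      obtain ⟨y, hy⟩ := hsurj (insert p.2 A) (by rw [Finset.card_insert_of_notMem hj]; omega)
      exact ⟨(x, y), fun _ => ⟨A, hi, hj, hx, hy⟩⟩
  choose ab hab using hex
  have hpt : ∀ᵐ ω ∂μ, ∑ p ∈ (Finset.univ : Finset (Fin N)).offDiag,
      fn (U0 ω) (τ ω) (Pi.single (ab p).1 1 + Pi.single (ab p).2 1)
        (Pi.single (ab p).1 1 - Pi.single (ab p).2 1) ≤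
      4 * N * (8 + 6 * δ ^ 2 * N * (2 * M ^ R : ℕ)) := by
    filter_upwards [Sim_diag h, Sim_span h] with ω h1 h2
    exact pointwise hS hsurj ht hδ hr hN hM hM1 hn (U0 ω) (h.unitary ω) (τ ω) (h.valid ω) h1 h2
      (fun p => (ab p).1) (fun p => (ab p).2) hab
  have hint : ∀ p ∈ (Finset.univ : Finset (Fin N)).offDiag,
      ∫ ω, fn (U0 ω) (τ ω) (Pi.single (ab p).1 1 + Pi.single (ab p).2 1)
        (Pi.single (ab p).1 1 - Pi.single (ab p).2 1) ∂μ = q * (2 / t) := by
    intro p hp
    rw [Finset.mem_offDiag] at hp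
    obtain ⟨A, hA1, hA2, hSa, hSb⟩ := hab p hp.2.2
    have hne : (ab p).1 ≠ (ab p).2 := by
      intro h
      rw [← h, hSa] at hSb
      have : p.1 ∈ insert p.2 A := by rw [← hSb]; exact Finset.mem_insert_self _ _
      rw [Finset.mem_insert] at this
      rcases this with h | h
      · exact hp.2.2 h
      · exact hA1 h
    rw [Sim_int h]
    have h3 : ∀ k, ‖star (Pi.single (ab p).1 1 - Pi.single (ab p).2 1 : Fin d → ℂ) ⬝ᵥ
        (Pk S k *ᵥ (Pi.single (ab p).1 1 + Pi.single (ab p).2 1 : Fin d → ℂ))‖ ^ 2 =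
        (if k = p.1 then 1 else 0) + (if k = p.2 then 1 else 0) := by
      intro k
      rw [test_diag _ (fun x y hxy => by rw [Pk, diagonal_apply_ne _ hxy]) hne]
      simp only [Pk, diagonal_apply_eq, hSa, hSb, Finset.mem_insert]
      by_cases hk : k ∈ A
      · have h1 : k ≠ p.1 := fun h => hA1 (h ▸ hk)
        have h2 : k ≠ p.2 := fun h => hA2 (h ▸ hk)
        simp [hk, h1, h2]
      · by_cases h1 : k = p.1
        · have h2 : k ≠ p.2 := fun h => hp.2.2 (h1 ▸ h)
          simp [hk, h1, h2, hp.2.2, hA1]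
        · by_cases h2 : k = p.2
          · simp [hk, h1, h2, hA2, Ne.symm hp.2.2]
          · simp [hk, h1, h2]
    simp only [h3]
    rw [Finset.sum_add_distrib, Finset.sum_ite_eq' , Finset.sum_ite_eq']
    simp only [Finset.mem_univ, if_true]
    ring
  have h4 : ∫ ω, ∑ p ∈ (Finset.univ : Finset (Fin N)).offDiag,
      fn (U0 ω) (τ ω) (Pi.single (ab p).1 1 + Pi.single (ab p).2 1)
        (Pi.single (ab p).1 1 - Pi.single (ab p).2 1) ∂μ = q * (2 / t) * (N * N - N) := by
    rw [integral_finsetSum _ (fun p _ => (h.fn_int _ _).1), Finset.sum_congr rfl hint,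
      Finset.sum_const, Finset.offDiag_card, Finset.card_univ, Fintype.card_fin, nsmul_eq_mul,
      Nat.cast_sub (Nat.le_mul_self N)]
    push_cast
    ring
  rw [← h4]
  calc _ ≤ ∫ _ω, 4 * N * (8 + 6 * δ ^ 2 * N * (2 * M ^ R : ℕ)) ∂μ := by
        apply integral_mono_ae _ (integrable_const _) hpt
        exact integrable_finsetSum _ (fun p _ => (h.fn_int _ _).1)
    _ = _ := by simp

end Main

/-- **MP_796113_mp, Q1 (disproof).** For every `c > 0` and every number of rounds `R` there are a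
dimension `d ≥ 2` and a channel on `ℂ^d` that no protocol with one ancilla qubit and at most `R`
rounds simulates with success probability at least `c`. -/
theorem result : ∀ c : ℝ, 0 < c → ∀ R : ℕ, ∃ d : ℕ, 2 ≤ d ∧
    ∃ Φ : Matrix (Fin d) (Fin d) ℂ →ₗ[ℂ] Matrix (Fin d) (Fin d) ℂ, IsChannel Φ ∧
      ∀ q : ℝ, c ≤ q → ∀ (Ω : Type) [MeasurableSpace Ω] (μ : Measure Ω) [IsProbabilityMeasure μ]
        (U0 : Ω → Matrix (J d) (J d) ℂ) (τ : Ω → Tree d R), ¬ Simulates Φ q Ω μ U0 τ := by
  classical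
  intro c hc R
  obtain ⟨κ, hκ3, hκ⟩ : ∃ κ : ℕ, 3 ≤ κ ∧ 64 / c < κ := by
    obtain ⟨k, hk⟩ := exists_nat_gt (64 / c)
    refine ⟨k + 3, by omega, ?_⟩
    push_cast
    linarith
  set L := 2 * (4 * κ) ^ R with hL
  have hL2 : 2 ≤ L := by
    have : 1 ≤ (4 * κ) ^ R := Nat.one_le_pow _ _ (by omega)
    omega
  obtain ⟨r, hr1, hr⟩ : ∃ r : ℕ, 1 ≤ r ∧ 1728 * (L : ℝ) ^ 2 / c < r + 1 := by
    obtain ⟨k, hk⟩ := exists_nat_gt (1728 * (L : ℝ) ^ 2 / c)
    refine ⟨k + 1, by omega, ?_⟩
    push_cast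
    linarith
  set t := 4 * L * r with htd
  have ht8 : 8 * r ≤ t := by
    rw [htd]; exact Nat.mul_le_mul_right _ (by omega)
  set N := κ * t with hNd
  have hN3 : 3 * t ≤ N := Nat.mul_le_mul_right _ hκ3
  set d := N.choose t with hd
  -- the labels
  have hcard : Fintype.card (Fin d) = Fintype.card ↥(Finset.powersetCard t
      (Finset.univ : Finset (Fin N))) := by
    rw [Fintype.card_fin, Fintype.card_coe, Finset.card_powersetCard, Finset.card_univ,
      Fintype.card_fin]
  let e := Fintype.equivOfCardEq hcard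
  set S : Fin d → Finset (Fin N) := fun x => (e x).1 with hSdef
  have hS : ∀ x, (S x).card = t := fun x => (Finset.mem_powersetCard.1 (e x).2).2
  have hsurj : ∀ T : Finset (Fin N), T.card = t → ∃ x, S x = T := by
    intro T hT
    refine ⟨e.symm ⟨T, Finset.mem_powersetCard.2 ⟨Finset.subset_univ _, hT⟩⟩, ?_⟩
    simp [hSdef]
  have hM := choose_bound κ t hκ3 (by omega)
  refine ⟨d, ?_, Phi S t, Phi_channel S t (by omega) hS, ?_⟩
  · -- d ≥ 2
    have h1 : N ≤ d := by
      rw [hd]
      obtain ⟨s, hs⟩ : ∃ s, t = s + 1 := ⟨t - 1, by omega⟩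
      obtain ⟨n, hn⟩ : ∃ n, N = n + 1 := ⟨N - 1, by omega⟩
      have h2 := Nat.add_one_mul_choose_eq n s
      rw [hn, hs]
      have h3 : s + 1 ≤ n.choose s := by
        have h4 : (s + 1).choose s ≤ n.choose s := Nat.choose_le_choose s (by omega)
        rwa [Nat.choose_succ_self_right] at h4
      have h5 : (n + 1) * (s + 1) ≤ (n + 1).choose (s + 1) * (s + 1) := by
        rw [← h2]; exact Nat.mul_le_mul_left _ h3
      exact Nat.le_of_mul_le_mul_right h5 (by omega)
    omega
  · intro q hq Ω _ μ _ U0 τ hsim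
    have hb := q_bound (r := r) (M := 4 * κ) (δ := 3 / (r + 1)) hsim hS hsurj (by omega)
      (by field_simp; norm_num) (by omega) (by omega) hM (by omega) (by
        rw [htd])
    -- arithmetic
    have htR : (t : ℝ) = 4 * L * r := by rw [htd]; push_cast; ring
    have hNR : (N : ℝ) = κ * t := by rw [hNd]; push_cast; ring
    have hLR : ((2 * (4 * κ) ^ R : ℕ) : ℝ) = (L : ℝ) := by rw [hL]
    rw [hLR] at hb
    have hκ0 : (0 : ℝ) < κ := by exact_mod_cast (by omega : 0 < κ)
    have hr0 : (0 : ℝ) < r := by exact_mod_cast hr1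
    have hL0 : (0 : ℝ) < L := by exact_mod_cast (by omega : 0 < L)
    have ht0 : (0 : ℝ) < t := by exact_mod_cast (by omega : 0 < t)
    have hN2 : (2 : ℝ) ≤ N := by exact_mod_cast (by omega : 2 ≤ N)
    have hN0 : (0 : ℝ) < N := by linarith
    have hq0 : 0 < q := lt_of_lt_of_le hc hq
    -- q κ ≤ 4 (8 + 6 δ² N L)
    have h1 : q * κ ≤ 4 * (8 + 6 * (3 / (r + 1 : ℝ)) ^ 2 * N * L) := by
      have h2 : q * (2 / t) * (N * N / 2) ≤ q * (2 / t) * (N * N - N) := by
        apply mul_le_mul_of_nonneg_left _ (by positivity)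
        nlinarith
      have h3 : q * (2 / t) * (N * N / 2) = N * (q * κ) := by
        rw [hNR]; field_simp
      have h4 : N * (q * κ) ≤ N * (4 * (8 + 6 * (3 / (r + 1 : ℝ)) ^ 2 * N * L)) := by
        rw [← h3]
        refine (h2.trans hb).trans (le_of_eq ?_)
        ring
      exact le_of_mul_le_mul_left h4 hN0
    have h5 : 4 * (8 + 6 * (3 / (r + 1 : ℝ)) ^ 2 * N * L) ≤
        κ * (32 / κ + 864 * (L : ℝ) ^ 2 / (r + 1)) := by
      rw [hNR, htR]
      have e1 : 4 * (8 + 6 * (3 / (r + 1 : ℝ)) ^ 2 * (κ * (4 * L * r)) * L) =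
          32 + κ * (864 * (L : ℝ) ^ 2 / (r + 1)) * (r / (r + 1)) := by
        field_simp; ring
      have e2 : κ * (32 / κ + 864 * (L : ℝ) ^ 2 / (r + 1)) =
          32 + κ * (864 * (L : ℝ) ^ 2 / (r + 1)) * 1 := by
        field_simp
      rw [e1, e2]
      have e3 : (r : ℝ) / (r + 1) ≤ 1 := by
        rw [div_le_one (by positivity)]; linarith
      gcongr
    have h6 : q ≤ 32 / κ + 864 * (L : ℝ) ^ 2 / (r + 1) := by
      have := h1.trans h5
      rw [mul_comm q] at this
      exact le_of_mul_le_mul_left this hκ0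
    have h7 : 32 / κ < c / 2 := by
      rw [div_lt_iff₀ hc] at hκ
      rw [div_lt_iff₀ hκ0]
      linarith
    have h8 : 864 * (L : ℝ) ^ 2 / (r + 1) < c / 2 := by
      rw [div_lt_iff₀ hc] at hr
      rw [div_lt_iff₀ (by positivity)]
      linarith
    linarith

end Pool.Agent.Results.MP_796113_mp.NoConstantRounds
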